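import Pool.Agent.Q54.TK.StmB

/-!
Project TK of helper54: the jobs DEG, LDS, LT, L1, L2.
-/

set_option autoImplicit false

namespace Pool.Agent.Q153.TK

open Finset Pool.Agent.Q54.TK

section
variable {V : Type} [DecidableEq V]

theorem pdInsert {M : Finset (Finset V)} (h : PD M) {e : Finset V}
    (he : ∀ f ∈ M, Disjoint e f) : PD (insert e M) := by
  intro a ha b hb hab
  rw [mem_insert] at ha hb
  rcases ha with rfl | ha
  · rcases hb with rfl | hb
    · exact absurd rfl hab
    · exact he b hb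
  · rcases hb with rfl | hb
    · exact (he a ha).symm
    · exact h a ha b hb hab

theorem cardBU {k : ℕ} {M : Finset (Finset V)} (h : PD M) (hu : ∀ e ∈ M, e.card = k) :
    (M.biUnion id).card = k * M.card := by
  have h1 : (M.biUnion id).card = ∑ e ∈ M, e.card :=
    card_biUnion (fun a ha b hb hab => h a ha b hb hab)
  rw [h1, sum_congr rfl hu, sum_const, smul_eq_mul, mul_comm]

/-- A matching with `s` edges meets every nonempty edge. -/
theorem meets {F M : Finset (Finset V)} {s : ℕ} (hn : NuLe F s) (hM : M ⊆ F) (hp : PD M)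
    (hs : M.card = s) {e : Finset V} (he : e ∈ F) (hne : e.Nonempty) :
    ∃ f ∈ M, ∃ x ∈ f, x ∈ e := by
  by_contra hcon
  push Not at hcon
  have hd : ∀ f ∈ M, Disjoint e f := by
    intro f hf
    rw [disjoint_left]
    intro x hx hxf
    exact hcon f hf x hxf hx
  have hnot : e ∉ M := by
    intro h
    obtain ⟨x, hx⟩ := hne
    exact hcon e h x hx hx
  have h1 := hn (insert e M) (by
    intro a ha
    rw [mem_insert] at ha
    rcases ha with rfl | ha
    · exact he
    · exact hM ha) (pdInsert hp hd)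
  rw [card_insert_of_notMem hnot] at h1
  omega

/-- Counting edges by a vertex in which they meet a given set. -/
theorem cntSum {F : Finset (Finset V)} (P : Finset V → Prop) [DecidablePred P] (W R : Finset V)
    (h : ∀ e ∈ F, P e → R ⊆ e ∧ ∃ x ∈ W, x ∈ e) :
    (F.filter P).card ≤ ∑ x ∈ W, dg F (insert x R) := by
  have h1 : F.filter P ⊆ W.biUnion (fun x => F.filter (fun e => insert x R ⊆ e)) := by
    intro e he
    rw [mem_filter] at he
    obtain ⟨hR, x, hx, hxe⟩ := h e he.1 he.2
    rw [mem_biUnion]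
    refine ⟨x, hx, ?_⟩
    rw [mem_filter]
    exact ⟨he.1, insert_subset hxe hR⟩
  calc (F.filter P).card ≤ _ := card_le_card h1
    _ ≤ _ := card_biUnion_le

end

theorem deg : S_DEG := by
  intro V _ _ F k s hH
  have key : ∀ n : ℕ, ∀ R : Finset V, R.card ≤ k → k - R.card = n → dg F R ≤ (k * s) ^ n := by
    intro n
    induction n with
    | zero =>
      intro R hR hn
      have hRk : R.card = k := by omega
      rw [pow_zero]
      unfold dg
      rw [card_le_one]
      intro a ha b hb
      rw [mem_filter] at ha hb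
      have e1 : R = a := eq_of_subset_of_card_le ha.2 (by rw [hH.uf a ha.1, hRk])
      have e2 : R = b := eq_of_subset_of_card_le hb.2 (by rw [hH.uf b hb.1, hRk])
      rw [← e1, ← e2]
    | succ n ih =>
      intro R hR hn
      obtain ⟨M, hMF, hPD, hdis, hcard⟩ := hH.res R (by omega)
      have h1 : dg F R ≤ ∑ x ∈ M.biUnion id, dg F (insert x R) := by
        unfold dg
        apply cntSum (F := F) (fun e => R ⊆ e)
        intro e he hRe
        refine ⟨hRe, ?_⟩
        have hne : e.Nonempty := by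
          rw [← card_pos, hH.uf e he]
          have := hH.k2
          omega
        obtain ⟨f, hf, x, hxf, hxe⟩ := meets hH.nu hMF hPD hcard he hne
        exact ⟨x, mem_biUnion.mpr ⟨f, hf, hxf⟩, hxe⟩
      have h2 : ∀ x ∈ M.biUnion id, dg F (insert x R) ≤ (k * s) ^ n := by
        intro x hx
        rw [mem_biUnion] at hx
        obtain ⟨f, hf, hxf⟩ := hx
        have hxR : x ∉ R := fun h => disjoint_left.mp (hdis f hf) hxf h
        have hc : (insert x R).card = R.card + 1 := card_insert_of_notMem hxR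
        exact ih (insert x R) (by omega) (by omega)
      calc dg F R ≤ _ := h1
        _ ≤ ∑ x ∈ M.biUnion id, (k * s) ^ n := sum_le_sum h2
        _ = (k * s) ^ (n + 1) := by
          rw [sum_const, cardBU hPD (fun e he => hH.uf e (hMF he)), hcard, smul_eq_mul, pow_succ,
            mul_comm]
  intro R hR
  exact key _ R hR rfl

theorem sumDg {V : Type} [Fintype V] [DecidableEq V] {F : Finset (Finset V)} {k : ℕ}
    (h : UF k F) : ∑ v, dg F {v} = k * F.card := by
  unfold dg
  simp only [card_filter, singleton_subset_iff]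
  rw [sum_comm]
  have : ∀ e ∈ F, ∑ v : V, (if v ∈ e then 1 else 0) = k := by
    intro e he
    rw [← h e he]
    simp
  rw [sum_congr rfl this, sum_const, smul_eq_mul, mul_comm]

theorem lds : S_DEG → S_LDS := by
  intro hdeg V _ _ F k s hH
  have hk := hH.k2
  have hs := hH.s1
  have hks : (1 : ℝ) ≤ (k : ℝ) * s := by
    have : 1 ≤ k * s := Nat.mul_pos (by omega) (by omega)
    exact_mod_cast this
  have hq : 0 < qq k s := by unfold qq; positivity
  have hqc : qq k s = (((k * s) ^ (k - 1) : ℕ) : ℝ) := by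
    unfold qq; push_cast; rfl
  have hsum : ∑ v, ld k s F v = k * F.card / qq k s := by
    unfold ld
    rw [← sum_div]
    congr 1
    have := sumDg hH.uf
    exact_mod_cast this
  refine ⟨hq, ?_, ?_, hsum, ?_, ?_⟩
  · unfold qq
    calc (k : ℝ) * s = ((k : ℝ) * s) ^ 1 := (pow_one _).symm
      _ ≤ _ := pow_le_pow_right₀ hks (by omega)
  · intro v
    refine ⟨by unfold ld; positivity, ?_⟩
    unfold ld
    rw [div_le_one hq, hqc]
    have := hdeg V F k s hH {v} (by rw [card_singleton]; omega)
    rw [card_singleton] at this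
    exact_mod_cast this
  · rw [hsum, div_le_iff₀ hq]
    have h0 := hdeg V F k s hH ∅ (by rw [card_empty]; omega)
    rw [card_empty, Nat.sub_zero] at h0
    have h1 : dg F ∅ = F.card := by
      unfold dg
      rw [filter_true_of_mem (fun e _ => empty_subset e)]
    rw [h1] at h0
    have h2 : (F.card : ℝ) ≤ ((k : ℝ) * s) ^ k := by exact_mod_cast h0
    unfold qq
    have h3 : ((k : ℝ) * s) ^ k = ((k : ℝ) * s) * ((k : ℝ) * s) ^ (k - 1) := by
      rw [← pow_succ']
      congr 1
      omega
    rw [h3] at h2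
    calc (k : ℝ) * F.card ≤ k * (((k : ℝ) * s) * ((k : ℝ) * s) ^ (k - 1)) := by gcongr
      _ = _ := by ring
  · intro u v huv
    have h0 := hdeg V F k s hH {u, v} (by rw [card_pair huv]; omega)
    rw [card_pair huv] at h0
    have h1 : (dg F {u, v} : ℝ) ≤ ((k : ℝ) * s) ^ (k - 2) := by exact_mod_cast h0
    unfold qq
    have h3 : ((k : ℝ) * s) ^ (k - 1) = ((k : ℝ) * s) ^ (k - 2) * ((k : ℝ) * s) := by
      rw [← pow_succ]
      congr 1
      omega
    rw [h3]
    gcongr

theorem lt : S_LT := by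
  intro V _ _ F k s X hL T hT
  obtain ⟨M, hMF, hPD, hdis, hcard⟩ := hL.hyp.res T hT
  have hLM : M.filter (fun e => ¬ e ⊆ X) ⊆ M := filter_subset _ _
  have hLF : M.filter (fun e => ¬ e ⊆ X) ⊆ F := hLM.trans hMF
  have hLP : PD (M.filter (fun e => ¬ e ⊆ X)) := fun a ha b hb hab =>
    hPD a (hLM ha) b (hLM hb) hab
  have hLX : ∀ e ∈ M.filter (fun e => ¬ e ⊆ X), ¬ e ⊆ X := fun e he => (mem_filter.mp he).2
  have hmat := hL.mat _ hLF hLP hLX
  have h1 : ∑ e ∈ M.filter (fun e => ¬ e ⊆ X), (e \ X).card = ∑ e ∈ M, (e \ X).card := by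
    apply sum_subset hLM
    intro e he hne
    rw [mem_filter, not_and, not_not] at hne
    rw [card_eq_zero, sdiff_eq_empty_iff_subset]
    exact hne he
  have h2 : ∑ e ∈ M, (e ∩ X).card ≤ (X \ T).card := by
    rw [← card_biUnion (t := fun e => e ∩ X) (s := M)]
    · apply card_le_card
      intro x hx
      rw [mem_biUnion] at hx
      obtain ⟨e, he, hxe⟩ := hx
      rw [mem_inter] at hxe
      rw [mem_sdiff]
      exact ⟨hxe.2, fun h => disjoint_left.mp (hdis e he) hxe.1 h⟩
    · intro a ha b hb hab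
      exact (hPD a ha b hb hab).mono inter_subset_left inter_subset_left
  have h3 : ∑ e ∈ M, (e ∩ X).card + ∑ e ∈ M, (e \ X).card = k * s := by
    rw [← sum_add_distrib]
    have : ∀ e ∈ M, (e ∩ X).card + (e \ X).card = k := by
      intro e he
      rw [card_inter_add_card_sdiff, hL.hyp.uf e (hMF he)]
    rw [sum_congr rfl this, sum_const, hcard, smul_eq_mul, mul_comm]
  have h4 : (X \ T).card + (T ∩ X).card = X.card := by
    rw [inter_comm, add_comm]
    exact card_inter_add_card_sdiff X T
  have h5 : (M.filter (fun e => ¬ e ⊆ X)).card ≤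
      ∑ e ∈ M.filter (fun e => ¬ e ⊆ X), (e \ X).card := by
    rw [card_eq_sum_ones]
    apply sum_le_sum
    intro e he
    have := hLX e he
    rw [Nat.one_le_iff_ne_zero, Ne, card_eq_zero, sdiff_eq_empty_iff_subset]
    exact this
  refine ⟨M.filter (fun e => ¬ e ⊆ X), hLF, hLP, hLX, fun e he => hdis e (hLM he), ?_, ?_⟩
  · omega
  · omega

/-- The common count of `L1` and `L2`. -/
theorem cntL (hdeg : S_DEG) {V : Type} [Fintype V] [DecidableEq V] {F : Finset (Finset V)}
    {k s : ℕ} (hH : Hyp k s F) (y : V) (L : Finset (Finset V)) (hLF : L ⊆ F) (hLP : PD L)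
    (hy : ∀ f ∈ L, y ∉ f) (P : Finset V → Prop) [DecidablePred P] (n : ℕ) (hn : L.card ≤ n)
    (h : ∀ e ∈ F, y ∈ e → P e → ∃ f ∈ L, ∃ x ∈ f, x ∈ e) :
    (F.filter (fun e => y ∈ e ∧ P e)).card ≤ k * n * (k * s) ^ (k - 2) := by
  have h1 : (F.filter (fun e => y ∈ e ∧ P e)).card ≤ ∑ x ∈ L.biUnion id, dg F (insert x {y}) := by
    apply cntSum
    intro e he hP
    refine ⟨singleton_subset_iff.mpr hP.1, ?_⟩
    obtain ⟨f, hf, x, hxf, hxe⟩ := h e he hP.1 hP.2
    exact ⟨x, mem_biUnion.mpr ⟨f, hf, hxf⟩, hxe⟩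
  have hk := hH.k2
  have h2 : ∀ x ∈ L.biUnion id, dg F (insert x {y}) ≤ (k * s) ^ (k - 2) := by
    intro x hx
    rw [mem_biUnion] at hx
    obtain ⟨f, hf, hxf⟩ := hx
    have hne : x ≠ y := by
      rintro rfl
      exact hy f hf hxf
    have hc : (insert x ({y} : Finset V)).card = 2 := card_pair hne
    have := hdeg V F k s hH (insert x {y}) (by omega)
    rwa [hc] at this
  calc _ ≤ _ := h1
    _ ≤ ∑ x ∈ L.biUnion id, (k * s) ^ (k - 2) := sum_le_sum h2
    _ = k * L.card * (k * s) ^ (k - 2) := by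
      rw [sum_const, cardBU hLP (fun e he => hH.uf e (hLF he)), smul_eq_mul]
    _ ≤ _ := by gcongr

theorem l1 : S_LT → S_DEG → S_L1 := by
  intro hLT hdeg V _ _ F k s X hL y hy
  have hk := hL.hyp.k2
  obtain ⟨T, hyT, hTX, hTc⟩ := exists_subsuperset_card_eq (singleton_subset_iff.mpr hy)
    (by rw [card_singleton]; omega : ({y} : Finset V).card ≤ k - 1) hL.xk
  rw [singleton_subset_iff] at hyT
  obtain ⟨L, hLF, hLP, hLX, hLT', hsum, hcard⟩ := hLT V F k s X hL T (by omega)
  rw [inter_eq_left.mpr hTX, hTc] at hsum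
  have hyL : ∀ f ∈ L, y ∉ f := fun f hf h => disjoint_left.mp (hLT' f hf) h hyT
  apply cntL hdeg hL.hyp y L hLF hLP hyL (fun e => ¬ e ⊆ X) _ hcard
  intro e he hye heX
  by_contra hcon
  push Not at hcon
  have hd : ∀ f ∈ L, Disjoint e f := by
    intro f hf
    rw [disjoint_left]
    intro x hx hxf
    exact hcon f hf x hxf hx
  have hnot : e ∉ L := fun h => hyL e h hye
  have hmat := hL.mat (insert e L) (insert_subset he hLF) (pdInsert hLP hd) (by
    intro f hf
    rw [mem_insert] at hf
    rcases hf with rfl | hf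
    · exact heX
    · exact hLX f hf)
  rw [sum_insert hnot] at hmat
  have h1 : 1 ≤ (e \ X).card := by
    rw [Nat.one_le_iff_ne_zero, Ne, card_eq_zero, sdiff_eq_empty_iff_subset]
    exact heX
  omega

theorem l2 : S_LT → S_DEG → S_L2 := by
  intro hLT hdeg V _ _ F k s X hL y hy
  have hk := hL.hyp.k2
  obtain ⟨T', hTX, hTc⟩ := exists_subset_card_eq (s := X) (n := k - 2) (by have := hL.xk; omega)
  have hyT' : y ∉ T' := fun h => hy (hTX h)
  have hTc' : (insert y T').card = k - 1 := by
    rw [card_insert_of_notMem hyT', hTc]; omega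
  obtain ⟨L, hLF, hLP, hLX, hLT', hsum, hcard⟩ := hLT V F k s X hL (insert y T') (by omega)
  have hint : (insert y T' ∩ X).card = k - 2 := by
    rw [insert_inter_of_notMem hy, inter_eq_left.mpr hTX, hTc]
  rw [hint] at hsum
  have hyL : ∀ f ∈ L, y ∉ f := fun f hf h => disjoint_left.mp (hLT' f hf) h (mem_insert_self _ _)
  apply cntL hdeg hL.hyp y L hLF hLP hyL (fun e => 2 ≤ (e \ X).card) _ hcard
  intro e he hye heX
  by_contra hcon
  push Not at hcon
  have hd : ∀ f ∈ L, Disjoint e f := by
    intro f hf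
    rw [disjoint_left]
    intro x hx hxf
    exact hcon f hf x hxf hx
  have hnot : e ∉ L := fun h => hyL e h hye
  have hmat := hL.mat (insert e L) (insert_subset he hLF) (pdInsert hLP hd) (by
    intro f hf
    rw [mem_insert] at hf
    rcases hf with rfl | hf
    · intro h
      rw [← sdiff_eq_empty_iff_subset] at h
      rw [h, card_empty] at heX
      omega
    · exact hLX f hf)
  rw [sum_insert hnot] at hmat
  omega

end Pool.Agent.Q153.TK
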